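import Mathlib
import Pool.Agent.KS6_36.QuadWidth.Main

set_option autoImplicit false

namespace Pool.Agent.Results.MP_6a591b_al.QuadraticWidth

/-- The ideal of the associated graded ring (tangent cone) of the semigroup ring of `g`: the ideal
generated by the initial forms (lowest degree homogeneous parts) of the elements of the toric
ideal. -/
noncomputable def coneIdeal (k : Type) [Field k] {n : ℕ} (g : Fin (n + 1) → ℕ) :
    Ideal (MvPolynomial (Fin (n + 1)) k) :=
  Ideal.span {p : MvPolynomial (Fin (n + 1)) k | ∃ f ∈ RingHom.ker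
      (MvPolynomial.aeval (fun j : Fin (n + 1) => (Polynomial.X : Polynomial k) ^ g j)),
    ∃ d : ℕ, (∀ m : ℕ, m < d → MvPolynomial.homogeneousComponent m f = 0) ∧
      p = MvPolynomial.homogeneousComponent d f}

/-- The Betti number `b_i(G_Γ) = dim Tor_i^S(S / I*, k)`. -/
noncomputable def betti (k : Type) [Field k] {n : ℕ} (g : Fin (n + 1) → ℕ) (i : ℕ) : ℕ∞ :=
  Module.length (MvPolynomial (Fin (n + 1)) k)
    (((CategoryTheory.Tor (ModuleCat.{0} (MvPolynomial (Fin (n + 1)) k)) i).obj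
      (ModuleCat.of (MvPolynomial (Fin (n + 1)) k)
        (MvPolynomial (Fin (n + 1)) k ⧸ coneIdeal k g))).obj
      (ModuleCat.of (MvPolynomial (Fin (n + 1)) k)
        (MvPolynomial (Fin (n + 1)) k ⧸
          Ideal.span (Set.range (MvPolynomial.X : Fin (n + 1) → MvPolynomial (Fin (n + 1)) k)))))

open MvPolynomial in
lemma ideal_eq (k : Type) [Field k] {n : ℕ} (g : Fin (n + 1) → ℕ) :
    coneIdeal k g = Pool.Agent.Helper816.KG.II k g := by
  unfold Pool.Agent.Helper816.KG.II coneIdeal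
  rw [← Pool.Agent.Helper816.TCAlg.span_star]
  congr 1
  ext p
  constructor
  · rintro ⟨f, hf, d, h1, h2⟩
    exact ⟨f, hf, d, h2.symm, h1⟩
  · rintro ⟨f, hf, d, h1, h2⟩
    exact ⟨f, hf, d, h2, h1.symm⟩

lemma hmin_of {n : ℕ} (g : Fin (n + 1) → ℕ)
    (h : ∀ j, g j ∉ AddSubmonoid.closure (g '' {l | l ≠ j})) (j : Fin (n + 1)) :
    ¬ ∃ d : Fin (n + 1) → ℕ, d j = 0 ∧ ∑ l, d l * g l = g j := by
  rintro ⟨d, hd, hs⟩
  apply h j
  rw [← hs]
  apply AddSubmonoid.sum_mem
  intro l _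
  by_cases hl : l = j
  · rw [hl, hd, zero_mul]
    exact AddSubmonoid.zero_mem _
  · rw [← smul_eq_mul]
    have h2 : g l ∈ AddSubmonoid.closure (g '' {l | l ≠ j}) :=
      AddSubmonoid.subset_closure ⟨l, hl, rfl⟩
    exact AddSubmonoid.nsmul_mem _ h2 _

/-- For a numerical semigroup `Γ` with `n + 1` minimal generators `g 0 < ... < g n` and width
`w = g n - g 0`, over any field and for every `i ≥ 1`, besides the bound
`b_i ≤ i * C(w+1, i+1)` the Betti numbers of the associated graded ring satisfy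
`n * (b_i + C(n, i+1)) + n * w * C(n, i-1) ≤ C(n+1, i) * w ^ 2`. -/
theorem result (k : Type) [Field k] (n : ℕ) (g : Fin (n + 1) → ℕ) (hg : StrictMono g)
    (hpos : ∀ j, 0 < g j)
    (_hfin : ((AddSubmonoid.closure (Set.range g) : Set ℕ)ᶜ).Finite)
    (hmin : ∀ j, g j ∉ AddSubmonoid.closure (g '' {l | l ≠ j})) (i : ℕ) (hi : 1 ≤ i) :
    betti k g i ≤ ((i * (g (Fin.last n) - g 0 + 1).choose (i + 1) : ℕ) : ℕ∞) ∧
    (n : ℕ∞) * (betti k g i + (n.choose (i + 1) : ℕ)) +
      ((n * (g (Fin.last n) - g 0) * n.choose (i - 1) : ℕ) : ℕ∞) ≤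
      (((n + 1).choose i * (g (Fin.last n) - g 0) ^ 2 : ℕ) : ℕ∞) := by
  have hm := hmin_of g hmin
  unfold betti
  rw [ideal_eq k g]
  cases n with
  | zero =>
    refine ⟨(Pool.Agent.Helper816.KMain.tor_zero k g hg (hpos 0) i hi).trans bot_le, ?_⟩
    simp
  | succ c =>
    exact ⟨Pool.Agent.Helper816.KMain.tor_bound k g hg (hpos 0) hm i hi,
      Pool.Agent.KS6_36.QuadWidth.tor_all k g hg (hpos 0) hm i hi⟩

end Pool.Agent.Results.MP_6a591b_al.QuadraticWidth
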